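import Pool.Agent.Q255.MK.Stm2
import Pool.Agent.Q162.FG.LT

/-!
# Project MK: LTM (copy of the proof of LT with two parameters)
-/

set_option autoImplicit false

open MeasureTheory Finset

namespace Pool.Agent.Q187.MK

open Q289.PAM Pool.Agent.Q255.RM Pool.Agent.Q255.FG Pool.Agent.Q255.MK Pool.Agent.Q162.FG

theorem ltm (h1 : S_DOM) (h2 : S_U0) : S_LTM := by
  obtain ⟨C, hC, h2⟩ := h2
  obtain ⟨N₀, hN₀⟩ := asym (3 + 5 * C)
  refine ⟨N₀, fun M N hM hMN _ a ha => ?_⟩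
  obtain ⟨hN2, hL1, hl, hL⟩ := hN₀ M hM
  unfold EP
  obtain ⟨ha1, ham, han⟩ := ha
  set L := Real.log M with hLdef
  obtain ⟨hm1, hα1, hfin⟩ := final C L hC hL1 hl hL _ rfl
  set m := ⌈4 * Real.sqrt (L / Real.log L)⌉₊ with hm
  set δ := dl M with hδ
  have hδ' : δ = 5 * Real.sqrt (Real.log L / L) := rfl
  have hlL : 0 < Real.log L := by linarith
  have hδ0 : 0 < δ := by
    rw [hδ']
    have : 0 < Real.log L / L := by positivity
    have := Real.sqrt_pos.2 this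
    linarith
  have hN0 : (0 : ℝ) < N := by exact_mod_cast (by omega : 0 < N)
  have hM0 : (0 : ℝ) < M := by exact_mod_cast (by omega : 0 < M)
  have hMN' : (M : ℝ) ≤ N := by exact_mod_cast hMN
  rw [← hδ'] at hα1 hfin
  set P := (range (N + 1)).filter Nat.Prime with hP
  have hPp : ∀ p ∈ P, p.Prime := fun p hp => (Finset.mem_filter.1 hp).2
  obtain ⟨J₀, hJ₀⟩ := exists_J P.card
  set J := max J₀ N with hJ
  have hJN : N ≤ J := le_max_right _ _
  have hJJ := hJ₀ J (le_max_left _ _)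
  set D := ((primorial N) ^ J).divisors with hD
  have hprim : primorial N = ∏ p ∈ P, p := rfl
  set A := D.filter fun n => N < n with hA
  -- the tail
  have hsplit : ∀ g : ℕ → ℂ, ∑ n ∈ D, g n = ∑ n ∈ Icc 1 N, g n + ∑ n ∈ A, g n := by
    intro g
    have : D = Icc 1 N ∪ A := by
      ext n
      rw [Finset.mem_union, hA, Finset.mem_filter, Finset.mem_Icc]
      constructor
      · intro hn
        have h0 : 1 ≤ n := Nat.pos_of_mem_divisors hn
        rcases le_or_gt n N with h | h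
        · exact Or.inl ⟨h0, h⟩
        · exact Or.inr ⟨hn, h⟩
      · rintro (⟨h0, h⟩ | ⟨h, _⟩)
        · exact mem_div hJN h0 h
        · exact h
    rw [this, Finset.sum_union]
    rw [Finset.disjoint_left]
    intro n hn hn'
    rw [Finset.mem_Icc] at hn
    have := (Finset.mem_filter.1 hn').2
    omega
  set c : ℕ → ℂ := fun n => a n * (((n : ℝ) ^ (-(1 / 2 + δ)) : ℝ) : ℂ) with hc
  have hcn : ∀ n ∈ A, ‖c n‖ ≤ (N : ℝ) ^ (-(δ / 2)) * (n : ℝ) ^ (-(1 / 2 + δ / 2)) := by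
    intro n hn
    have hn1 : N < n := (Finset.mem_filter.1 hn).2
    have hn0 : (0 : ℝ) < n := by exact_mod_cast (by omega : 0 < n)
    have hnN : (N : ℝ) ≤ n := by exact_mod_cast hn1.le
    rw [hc]
    simp only [norm_mul, Complex.norm_real]
    rw [Real.norm_of_nonneg (by positivity)]
    calc ‖a n‖ * (n : ℝ) ^ (-(1 / 2 + δ)) ≤ 1 * (n : ℝ) ^ (-(1 / 2 + δ)) :=
          mul_le_mul_of_nonneg_right (han n) (by positivity)
      _ = (n : ℝ) ^ (-(δ / 2)) * (n : ℝ) ^ (-(1 / 2 + δ / 2)) := by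
          rw [one_mul, ← Real.rpow_add hn0]
          congr 1
          ring
      _ ≤ (N : ℝ) ^ (-(δ / 2)) * (n : ℝ) ^ (-(1 / 2 + δ / 2)) := by
          refine mul_le_mul_of_nonneg_right ?_ (by positivity)
          exact Real.rpow_le_rpow_of_nonpos hN0 hnN (by linarith)
  have key := two_step h1 h2 (δ / 2) m N J (by linarith) hα1 hm1 (by omega) A (Finset.filter_subset _ _) c
    ((N : ℝ) ^ (-(δ / 2))) (by positivity) hcn
  -- the event
  have hsub : {ω | 1 ≤ ‖∑ n ∈ Icc 1 N, f ω n * a n * (((n : ℝ) ^ (-(1 / 2 + δ)) : ℝ) : ℂ) -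
      ∏ p ∈ P, (1 - f ω p * a p * (((p : ℝ) ^ (-(1 / 2 + δ)) : ℝ) : ℂ))⁻¹‖} ⊆
      {ω | 1 / 2 ≤ ‖∑ n ∈ A, c n * f ω n‖} := by
    intro ω hω
    rw [Set.mem_ofPred_eq] at hω ⊢
    set g : ℕ → ℂ := fun n => f ω n * a n * (((n : ℝ) ^ (-(1 / 2 + δ)) : ℝ) : ℂ) with hg
    have gm : ∀ x y, x ≠ 0 → y ≠ 0 → g (x * y) = g x * g y := by
      intro x y hx hy
      simp only [hg]
      rw [f_mul ω hx hy, ham]
      have : (((x * y : ℕ) : ℝ) ^ (-(1 / 2 + δ))) = (x : ℝ) ^ (-(1 / 2 + δ)) * (y : ℝ) ^ (-(1 / 2 + δ)) := by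
        rw [Nat.cast_mul, Real.mul_rpow (Nat.cast_nonneg _) (Nat.cast_nonneg _)]
      rw [this]
      push_cast
      ring
    have g1 : g 1 = 1 := by
      simp only [hg]
      rw [f_one, ha1]
      simp
    have he := euler g g1 gm P hPp J
    rw [← hprim, ← hD, hsplit g] at he
    have hz : ∀ p ∈ P, ‖g p‖ ≤ 3 / 4 := by
      intro p hp
      have hp2 : (2 : ℝ) ≤ p := by exact_mod_cast (hPp p hp).two_le
      simp only [hg, norm_mul, Complex.norm_real, norm_f]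
      rw [Real.norm_of_nonneg (by positivity), one_mul]
      have h34 : (2 : ℝ) ^ (-(1 / 2 : ℝ)) ≤ 3 / 4 := by
        rw [Real.rpow_neg (by norm_num), ← Real.sqrt_eq_rpow, inv_le_comm₀ (by positivity) (by norm_num)]
        apply Real.le_sqrt_of_sq_le
        norm_num
      calc ‖a p‖ * (p : ℝ) ^ (-(1 / 2 + δ)) ≤ 1 * (p : ℝ) ^ (-(1 / 2 + δ)) :=
            mul_le_mul_of_nonneg_right (han p) (by positivity)
        _ ≤ (p : ℝ) ^ (-(1 / 2 : ℝ)) := by
            rw [one_mul]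
            exact Real.rpow_le_rpow_of_exponent_le (by linarith) (by linarith)
        _ ≤ (2 : ℝ) ^ (-(1 / 2 : ℝ)) := Real.rpow_le_rpow_of_nonpos (by norm_num) hp2 (by norm_num)
        _ ≤ 3 / 4 := h34
    have hcl := (close P g hz J).1.trans hJJ
    rw [he] at hcl
    have hR : ∑ n ∈ A, c n * f ω n = ∑ n ∈ A, g n := by
      refine Finset.sum_congr rfl fun n _ => ?_
      simp only [hc, hg]
      ring
    rw [hR]
    have e1 : ∑ n ∈ Icc 1 N, g n - ∏ p ∈ P, (1 - g p)⁻¹ =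
        -(∏ p ∈ P, (1 - g p)⁻¹ - (∑ n ∈ Icc 1 N, g n + ∑ n ∈ A, g n)) - ∑ n ∈ A, g n := by ring
    have e2 : 1 ≤ ‖∑ n ∈ Icc 1 N, g n - ∏ p ∈ P, (1 - g p)⁻¹‖ := hω
    rw [e1] at e2
    have e3 := norm_sub_le (-(∏ p ∈ P, (1 - g p)⁻¹ - (∑ n ∈ Icc 1 N, g n + ∑ n ∈ A, g n))) (∑ n ∈ A, g n)
    rw [norm_neg] at e3
    linarith
  have hcont : Continuous fun ω => ∑ n ∈ A, c n * f ω n :=
    continuous_finsetSum _ fun n _ => continuous_const.mul (f_cont n)
  refine (measureReal_mono hsub).trans ?_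
  refine (markov _ hcont m).trans ?_
  refine (mul_le_mul_of_nonneg_left key (by positivity)).trans ?_
  have x0 : ((N : ℝ) ^ (-(δ / 2))) ^ (2 * m) ≤ ((M : ℝ) ^ (-(δ / 2))) ^ (2 * m) :=
    pow_le_pow_left₀ (by positivity) (Real.rpow_le_rpow_of_nonpos hM0 hMN' (by linarith)) _
  have x1 : ((M : ℝ) ^ (-(δ / 2))) ^ (2 * m) = Real.exp (-(m * δ * L)) := by
    rw [Real.rpow_def_of_pos hM0, ← Real.exp_nat_mul]
    congr 1
    push_cast
    ring
  have x2 : (2 : ℝ) ^ (2 * m) = Real.exp (2 * m * Real.log 2) := by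
    rw [← Real.rpow_natCast, Real.rpow_def_of_pos (by norm_num)]
    congr 1
    push_cast
    ring
  have x3 : (M : ℝ) ^ (-6 : ℝ) = Real.exp (-(6 * L)) := by
    rw [Real.rpow_def_of_pos hM0]
    congr 1
    ring
  have hM1 : (1 : ℝ) ≤ M := by exact_mod_cast (by omega : 1 ≤ M)
  refine le_trans ?_ (Real.rpow_le_rpow_of_exponent_le hM1 (by norm_num : (-6 : ℝ) ≤ -5))
  refine (mul_le_mul_of_nonneg_left (mul_le_mul_of_nonneg_right x0 (by unfold UB; positivity)) (by positivity)).trans ?_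
  rw [x1, x2, x3, UB, ← Real.exp_add, ← Real.exp_add, Real.exp_le_exp]
  linarith

end Pool.Agent.Q187.MK
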