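import Pool.Agent.Q255.MK.Stm2
import Pool.Agent.Q289.TS.Kernel

/-!
# Project MK: POIS (the Poisson kernel reproduces Dirichlet polynomials)
-/

set_option autoImplicit false

open MeasureTheory Finset

namespace Pool.Agent.Q187.MK

open Q289.PAM Pool.Agent.Q255.RM Pool.Agent.Q255.FG Pool.Agent.Q255.MK

/-- the kernel -/
noncomputable def PK (δ u : ℝ) : ℝ := δ / (Real.pi * (δ ^ 2 + u ^ 2))

lemma PK_int {δ : ℝ} (hδ : 0 < δ) : Integrable (PK δ) := Q289.TS.cauchy_integrable hδ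

lemma PK_nonneg {δ : ℝ} (hδ : 0 < δ) (u : ℝ) : 0 ≤ PK δ u := by
  unfold PK
  have := Real.pi_pos
  positivity

lemma PK_even (δ u : ℝ) : PK δ (-u) = PK δ u := by
  unfold PK
  rw [neg_sq]

lemma osc_int {δ : ℝ} (hδ : 0 < δ) (l : ℝ) :
    Integrable (fun u : ℝ => Complex.exp (((-(l * u) : ℝ) : ℂ) * Complex.I) * (PK δ u : ℂ)) := by
  refine ((PK_int hδ).ofReal (𝕜 := ℂ)).bdd_mul (c := 1) (by fun_prop) (Filter.Eventually.of_forall fun v => ?_)
  rw [Complex.norm_exp_ofReal_mul_I]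

lemma osc {δ : ℝ} (hδ : 0 < δ) {l : ℝ} (hl : 0 ≤ l) :
    ∫ u : ℝ, Complex.exp (((-(l * u) : ℝ) : ℂ) * Complex.I) * (PK δ u : ℂ) = ((Real.exp (-δ * l) : ℝ) : ℂ) := by
  have hi := osc_int hδ l
  apply Complex.ext
  · have h1 : (∫ u : ℝ, Complex.exp (((-(l * u) : ℝ) : ℂ) * Complex.I) * (PK δ u : ℂ)).re =
        ∫ u : ℝ, (Complex.exp (((-(l * u) : ℝ) : ℂ) * Complex.I) * (PK δ u : ℂ)).re := by
      symm
      exact integral_re hi
    rw [h1, Complex.ofReal_re]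
    have h2 := Q289.TS.cauchy_cos hδ l
    rw [abs_of_nonneg hl] at h2
    rw [← h2]
    refine integral_congr_ae (Filter.Eventually.of_forall fun u => ?_)
    simp only
    rw [Complex.re_mul_ofReal, Complex.exp_ofReal_mul_I_re, Real.cos_neg]
    rfl
  · have h1 : (∫ u : ℝ, Complex.exp (((-(l * u) : ℝ) : ℂ) * Complex.I) * (PK δ u : ℂ)).im =
        ∫ u : ℝ, (Complex.exp (((-(l * u) : ℝ) : ℂ) * Complex.I) * (PK δ u : ℂ)).im := by
      symm
      exact integral_im hi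
    rw [h1, Complex.ofReal_im]
    set G : ℝ → ℝ := fun u => (Complex.exp (((-(l * u) : ℝ) : ℂ) * Complex.I) * (PK δ u : ℂ)).im with hG
    have hodd : ∀ u, G (-u) = -G u := by
      intro u
      simp only [hG]
      rw [Complex.im_mul_ofReal, Complex.exp_ofReal_mul_I_im, Complex.im_mul_ofReal,
        Complex.exp_ofReal_mul_I_im, PK_even]
      have : -(l * -u) = -(-(l * u)) := by ring
      rw [this, Real.sin_neg (-(l * u))]
      ring
    have h2 : ∫ u, G (-u) = ∫ u, G u := integral_neg_eq_self G volume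
    simp_rw [hodd] at h2
    rw [integral_neg] at h2
    linarith

lemma g_eq (x u : ℝ) {n : ℕ} (hn : 1 ≤ n) :
    g (x + u) n = (((n : ℝ) ^ (-(1 / 2 : ℝ)) : ℝ) : ℂ) * tw x n *
      Complex.exp (((-(Real.log n * u) : ℝ) : ℂ) * Complex.I) := by
  have hn0 : (n : ℂ) ≠ 0 := by exact_mod_cast (by omega : n ≠ 0)
  unfold g tw
  rw [Complex.ofReal_cpow (Nat.cast_nonneg _), Complex.ofReal_natCast, Complex.cpow_def_of_ne_zero hn0,
    Complex.cpow_def_of_ne_zero hn0, Complex.cpow_def_of_ne_zero hn0, ← Complex.exp_add, ← Complex.exp_add]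
  congr 1
  rw [← Complex.natCast_log]
  push_cast
  ring

lemma rpow_split (δ : ℝ) {n : ℕ} (hn : 1 ≤ n) :
    (n : ℝ) ^ (-(1 / 2 + δ)) = (n : ℝ) ^ (-(1 / 2 : ℝ)) * Real.exp (-δ * Real.log n) := by
  have hn0 : (0 : ℝ) < n := by exact_mod_cast hn
  have e : -(1 / 2 + δ) = -(1 / 2 : ℝ) + -δ := by ring
  rw [e, Real.rpow_add hn0, Real.rpow_def_of_pos hn0 (-δ)]
  congr 2
  ring

theorem pois : S_POIS := by
  intro ω N x δ hδ
  have hterm : ∀ n ∈ Icc 1 N, f ω n * tw x n * (((n : ℝ) ^ (-(1 / 2 + δ)) : ℝ) : ℂ) =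
      ∫ u : ℝ, f ω n * g (x + u) n * (PK δ u : ℂ) := by
    intro n hn
    have hn1 : 1 ≤ n := (Finset.mem_Icc.1 hn).1
    have hl : 0 ≤ Real.log n := Real.log_natCast_nonneg n
    have e : ∀ u : ℝ, f ω n * g (x + u) n * (PK δ u : ℂ) =
        (f ω n * (((n : ℝ) ^ (-(1 / 2 : ℝ)) : ℝ) : ℂ) * tw x n) *
          (Complex.exp (((-(Real.log n * u) : ℝ) : ℂ) * Complex.I) * (PK δ u : ℂ)) := by
      intro u
      rw [g_eq x u hn1]
      ring
    simp_rw [e]
    rw [integral_const_mul, osc hδ hl, rpow_split δ hn1]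
    push_cast
    ring
  have hint : ∀ n ∈ Icc 1 N, Integrable (fun u : ℝ => f ω n * g (x + u) n * (PK δ u : ℂ)) := by
    intro n hn
    have hn1 : 1 ≤ n := (Finset.mem_Icc.1 hn).1
    have e : (fun u : ℝ => f ω n * g (x + u) n * (PK δ u : ℂ)) = fun u : ℝ =>
        (f ω n * (((n : ℝ) ^ (-(1 / 2 : ℝ)) : ℝ) : ℂ) * tw x n) *
          (Complex.exp (((-(Real.log n * u) : ℝ) : ℂ) * Complex.I) * (PK δ u : ℂ)) := by
      funext u
      rw [g_eq x u hn1]
      ring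
    rw [e]
    exact (osc_int hδ _).const_mul _
  rw [Finset.sum_congr rfl hterm, ← integral_finsetSum _ hint]
  refine (norm_integral_le_integral_norm _).trans (le_of_eq ?_)
  refine integral_congr_ae (Filter.Eventually.of_forall fun u => ?_)
  simp only
  rw [← Finset.sum_mul, norm_mul, Complex.norm_real, Real.norm_of_nonneg (PK_nonneg hδ u)]
  rfl

end Pool.Agent.Q187.MK
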