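import Pool.Agent.Q255.MK.Stm2
import Pool.Agent.Q162.FG.LT

/-!
# Project MK: TAIL (the primes between `M` and `2M`)
-/

set_option autoImplicit false

open MeasureTheory Finset

namespace Pool.Agent.Q187.MK

open Q289.PAM Pool.Agent.Q255.RM Pool.Agent.Q255.FG Pool.Agent.Q255.MK Pool.Agent.Q162.FG

lemma prod_ge (h1 : S_LG) (P : Finset ℕ) (z : ℕ → ℂ) (hz : ∀ p ∈ P, ‖z p‖ ≤ 3 / 4) :
    Real.exp (∑ p ∈ P, (z p).re - 2 * ∑ p ∈ P, ‖z p‖ ^ 2) ≤ ‖∏ p ∈ P, (1 - z p)⁻¹‖ := by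
  have e : ∑ p ∈ P, (z p).re - 2 * ∑ p ∈ P, ‖z p‖ ^ 2 = ∑ p ∈ P, ((z p).re - 2 * ‖z p‖ ^ 2) := by
    rw [Finset.mul_sum, Finset.sum_sub_distrib]
  rw [e, Real.exp_sum, norm_prod]
  refine Finset.prod_le_prod (fun _ _ => (Real.exp_pos _).le) fun p hp => ?_
  rw [norm_inv]
  exact (h1 (z p) (hz p hp)).1

lemma asym2 : ∃ M₀ : ℕ, ∀ M : ℕ, M₀ ≤ M → 4 ≤ M ∧ 20 ≤ Real.log M ∧ 1 ≤ Real.log (Real.log M) ∧
    64 * Real.log (Real.log M) ≤ Real.log M := by
  obtain ⟨N₀, h⟩ := asym 20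
  refine ⟨max N₀ 4, fun M hM => ?_⟩
  obtain ⟨_, h2, h3, h4⟩ := h M (le_trans (le_max_left _ _) hM)
  have h5 : Real.log (Real.log M) ≤ Real.log M - 1 := by
    have := Real.log_le_sub_one_of_pos (show (0 : ℝ) < Real.log M by linarith)
    linarith
  exact ⟨le_trans (le_max_right _ _) hM, by linarith, by linarith, by nlinarith⟩

theorem tail (h1 : S_LG) (h2 : S_EXPM) : S_TAIL := by
  obtain ⟨M₀, hM₀⟩ := asym2
  refine ⟨M₀, fun M N hM hMN hN2 a ha => ?_⟩
  obtain ⟨hM4, hL, hl, hlL⟩ := hM₀ M hM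
  set L := Real.log M with hLdef
  set l := Real.log L with hldef
  set δ := dl M with hδ
  have hδ' : δ = 5 * Real.sqrt (l / L) := rfl
  set s := Real.sqrt (L * l) with hs
  have hL0 : 0 < L := by linarith
  have hl0 : 0 < l := by linarith
  have hδL : δ * L = 5 * s := by
    have e : Real.sqrt (L * l) = Real.sqrt (l / L) * L := by
      have : L * l = (l / L) * (L * L) := by field_simp
      rw [this, Real.sqrt_mul (by positivity), Real.sqrt_mul_self hL0.le]
    rw [hδ', hs, e]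
    ring
  have hs0 : 0 ≤ s := Real.sqrt_nonneg _
  have hss : s ^ 2 = L * l := Real.sq_sqrt (by positivity)
  have hsl : l ≤ s := by
    apply Real.le_sqrt_of_sq_le
    nlinarith
  have hs8 : 8 * s ≤ L := by
    have h8 : s ≤ L / 8 := by
      rw [hs]
      apply Real.sqrt_le_iff.2
      constructor
      · positivity
      · nlinarith
    linarith
  have hM0 : (0 : ℝ) < M := by exact_mod_cast (by omega : 0 < M)
  have hδ0 : 0 < δ := by
    by_contra h
    push Not at h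
    nlinarith
  set r : ℝ := (M : ℝ) ^ (-(1 / 2 + δ)) with hr
  have hr0 : 0 < r := by positivity
  have hr2 : (M : ℝ) * r ^ 2 = Real.exp (-(10 * s)) := by
    have : (M : ℝ) * r ^ 2 = Real.exp (L + 2 * (L * (-(1 / 2 + δ)))) := by
      rw [Real.exp_add, hr, Real.rpow_def_of_pos hM0, ← Real.exp_nat_mul, hLdef, Real.exp_log hM0]
      push_cast
      ring_nf
    rw [this]
    congr 1
    nlinarith
  have hr1 : r ≤ Real.exp (-(L / 2)) := by
    rw [hr, Real.rpow_def_of_pos hM0, Real.exp_le_exp, ← hLdef]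
    nlinarith
  set P := (Ioc M N).filter Nat.Prime with hP
  have hPp : ∀ p ∈ P, p.Prime := fun p hp => (Finset.mem_filter.1 hp).2
  have hPM : ∀ p ∈ P, M < p := fun p hp => (Finset.mem_Ioc.1 (Finset.mem_filter.1 hp).1).1
  have hcard : (P.card : ℝ) ≤ M := by
    have h3 : P.card ≤ (Ioc M N).card := Finset.card_filter_le _ _
    rw [Nat.card_Ioc] at h3
    have : P.card ≤ M := by omega
    exact_mod_cast this
  have hpr : ∀ p ∈ P, (p : ℝ) ^ (-(1 / 2 + δ)) ≤ r := fun p hp => by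
    have : (M : ℝ) ≤ p := by exact_mod_cast (hPM p hp).le
    exact Real.rpow_le_rpow_of_nonpos hM0 this (by linarith)
  set c : ℕ → ℂ := fun p => a p * (((p : ℝ) ^ (-(1 / 2 + δ)) : ℝ) : ℂ) with hc
  have hcn : ∀ p ∈ P, ‖c p‖ ≤ r := by
    intro p hp
    simp only [hc, norm_mul, Complex.norm_real]
    rw [Real.norm_of_nonneg (by positivity)]
    calc ‖a p‖ * (p : ℝ) ^ (-(1 / 2 + δ)) ≤ 1 * r :=
          mul_le_mul (ha p) (hpr p hp) (by positivity) zero_le_one
      _ = r := one_mul r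
  have hcs : ∑ p ∈ P, ‖c p‖ ^ 2 ≤ Real.exp (-(10 * s)) := by
    calc ∑ p ∈ P, ‖c p‖ ^ 2 ≤ ∑ p ∈ P, r ^ 2 :=
          Finset.sum_le_sum fun p hp => pow_le_pow_left₀ (norm_nonneg _) (hcn p hp) 2
      _ = (P.card : ℝ) * r ^ 2 := by rw [Finset.sum_const, nsmul_eq_mul]
      _ ≤ M * r ^ 2 := mul_le_mul_of_nonneg_right hcard (by positivity)
      _ = _ := hr2
  set lam := Real.exp (4 * s) with hlam
  have hlam0 : 0 < lam := Real.exp_pos _
  set w : ℕ → ℂ := fun p => -(lam : ℂ) * c p with hw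
  have hwn : ∀ p, ‖w p‖ = lam * ‖c p‖ := by
    intro p
    simp only [hw, norm_mul, norm_neg, Complex.norm_real]
    rw [Real.norm_of_nonneg hlam0.le]
  have hw1 : ∀ p ∈ P, ‖w p‖ ≤ 1 := by
    intro p hp
    rw [hwn]
    calc lam * ‖c p‖ ≤ lam * Real.exp (-(L / 2)) :=
          mul_le_mul_of_nonneg_left ((hcn p hp).trans hr1) hlam0.le
      _ = Real.exp (4 * s + -(L / 2)) := by rw [hlam, Real.exp_add]
      _ ≤ 1 := by
          rw [← Real.exp_zero, Real.exp_le_exp]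
          linarith
  have hmom := h2.2.1 P w (fun p hp => ⟨hPp p hp, hw1 p hp⟩)
  have hexp : ∑ p ∈ P, (‖w p‖ ^ 2 / 4 + ‖w p‖ ^ 3) ≤ 5 / 4 := by
    calc ∑ p ∈ P, (‖w p‖ ^ 2 / 4 + ‖w p‖ ^ 3) ≤ ∑ p ∈ P, (5 / 4) * (lam ^ 2 * ‖c p‖ ^ 2) := by
          refine Finset.sum_le_sum fun p hp => ?_
          have h3 : ‖w p‖ ^ 3 ≤ ‖w p‖ ^ 2 * 1 := by
            rw [pow_succ]
            exact mul_le_mul_of_nonneg_left (hw1 p hp) (by positivity)
          have h4 : lam ^ 2 * ‖c p‖ ^ 2 = ‖w p‖ ^ 2 := by rw [hwn]; ring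
          rw [h4]
          linarith
      _ = (5 / 4) * (lam ^ 2 * ∑ p ∈ P, ‖c p‖ ^ 2) := by
          rw [Finset.mul_sum, Finset.mul_sum]
      _ ≤ (5 / 4) * (lam ^ 2 * Real.exp (-(10 * s))) := by
          refine mul_le_mul_of_nonneg_left (mul_le_mul_of_nonneg_left hcs (by positivity)) (by norm_num)
      _ = (5 / 4) * Real.exp (-(2 * s)) := by
          rw [hlam, ← Real.exp_nat_mul, ← Real.exp_add]
          congr 2
          push_cast
          ring
      _ ≤ (5 / 4) * 1 := by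
          refine mul_le_mul_of_nonneg_left ?_ (by norm_num)
          rw [← Real.exp_zero, Real.exp_le_exp]
          linarith
      _ = 5 / 4 := mul_one _
  have hcont : Continuous fun ω => Real.exp (∑ p ∈ P, w p * f ω p).re := by
    refine Real.continuous_exp.comp (Complex.continuous_re.comp ?_)
    exact continuous_finsetSum _ fun n _ => continuous_const.mul (f_cont n)
  have hmark := mul_meas_ge_le_integral_of_nonneg (μ := PT) (f := fun ω => Real.exp (∑ p ∈ P, w p * f ω p).re)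
    (Filter.Eventually.of_forall fun ω => (Real.exp_pos _).le) (integ _ hcont) (Real.exp (lam / 2))
  have hsub : {ω | ‖∏ p ∈ P, (1 - f ω p * a p * (((p : ℝ) ^ (-(1 / 2 + δ)) : ℝ) : ℂ))⁻¹‖ < 1 / 2} ⊆
      {ω | Real.exp (lam / 2) ≤ Real.exp (∑ p ∈ P, w p * f ω p).re} := by
    intro ω hω
    rw [Set.mem_ofPred_eq] at hω ⊢
    rw [Real.exp_le_exp]
    set z : ℕ → ℂ := fun p => f ω p * a p * (((p : ℝ) ^ (-(1 / 2 + δ)) : ℝ) : ℂ) with hz
    have hzc : ∀ p, z p = c p * f ω p := fun p => by simp only [hz, hc]; ring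
    have hzn : ∀ p, ‖z p‖ = ‖c p‖ := fun p => by rw [hzc, norm_mul, norm_f, mul_one]
    have hz34 : ∀ p ∈ P, ‖z p‖ ≤ 3 / 4 := by
      intro p hp
      rw [hzn]
      refine ((hcn p hp).trans hr1).trans ?_
      have : Real.exp (-(L / 2)) ≤ Real.exp (-1) := by rw [Real.exp_le_exp]; linarith
      refine this.trans ?_
      rw [Real.exp_neg]
      rw [inv_le_comm₀ (Real.exp_pos _) (by norm_num)]
      have := Real.add_one_le_exp (1 : ℝ)
      linarith
    have hpg := prod_ge h1 P z hz34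
    have h5 : Real.exp (∑ p ∈ P, (z p).re - 2 * ∑ p ∈ P, ‖z p‖ ^ 2) < 1 / 2 := lt_of_le_of_lt hpg hω
    have h6 : ∑ p ∈ P, ‖z p‖ ^ 2 ≤ 1 / 100 := by
      simp_rw [hzn]
      refine hcs.trans ?_
      have h7 : Real.exp (-(10 * s)) ≤ Real.exp (-10) := by rw [Real.exp_le_exp]; linarith
      refine h7.trans ?_
      rw [Real.exp_neg, inv_le_comm₀ (Real.exp_pos _) (by norm_num)]
      have h8 : (10 : ℝ) / 4 ≤ Real.exp (10 / 4) := by
        have := Real.add_one_le_exp (10 / 4 : ℝ)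
        linarith
      have h9 : Real.exp 10 = Real.exp (10 / 4) ^ 4 := by
        rw [← Real.exp_nat_mul]; norm_num
      rw [h9]
      have h10 : (3.5 : ℝ) ≤ Real.exp (10 / 4) := by
        have := Real.add_one_le_exp (10 / 4 : ℝ)
        norm_num at this ⊢
        linarith
      calc ((1 : ℝ) / 100)⁻¹ ≤ 3.5 ^ 4 := by norm_num
        _ ≤ _ := pow_le_pow_left₀ (by norm_num) h10 4
    have h7 : ∑ p ∈ P, (z p).re - 2 * ∑ p ∈ P, ‖z p‖ ^ 2 < -(2 / 3) := by
      by_contra h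
      push Not at h
      have h8 := Real.exp_le_exp.2 h
      have h9 : (1 : ℝ) / 2 ≤ Real.exp (-(2 / 3)) := by
        rw [Real.exp_neg, le_inv_comm₀ (by norm_num) (Real.exp_pos _)]
        have h11 : Real.exp (2 / 3) ≤ Real.exp (Real.log 2) := by
          rw [Real.exp_le_exp]
          have := Real.log_two_gt_d9
          linarith
        rw [Real.exp_log (by norm_num)] at h11
        norm_num at h11 ⊢
        linarith
      linarith
    have h8 : ∑ p ∈ P, (z p).re ≤ -(1 / 2) := by linarith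
    have h9 : (∑ p ∈ P, w p * f ω p).re = -lam * ∑ p ∈ P, (z p).re := by
      have : ∑ p ∈ P, w p * f ω p = ((-lam : ℝ) : ℂ) * ∑ p ∈ P, z p := by
        rw [Finset.mul_sum]
        refine Finset.sum_congr rfl fun p _ => ?_
        rw [hzc]
        simp only [hw]
        push_cast
        ring
      rw [this, Complex.re_ofReal_mul, Complex.re_sum]
    rw [h9]
    nlinarith
  refine (measureReal_mono hsub).trans ?_
  have hfin : PT.real {ω | Real.exp (lam / 2) ≤ Real.exp (∑ p ∈ P, w p * f ω p).re} ≤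
      Real.exp (5 / 4 - lam / 2) := by
    rw [Real.exp_sub, le_div_iff₀ (Real.exp_pos _), mul_comm]
    exact hmark.trans (hmom.trans (Real.exp_le_exp.2 hexp))
  refine hfin.trans ?_
  rw [Real.rpow_def_of_pos hM0, Real.exp_le_exp, ← hLdef]
  have h3 : L ^ 4 ≤ lam := by
    have : L ^ 4 = Real.exp (4 * l) := by
      have h4 := Real.exp_nat_mul l 4
      push_cast at h4
      rw [h4, hldef, Real.exp_log hL0]
    rw [this, hlam, Real.exp_le_exp]
    linarith
  have h4 : 8000 * L ≤ L ^ 4 := by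
    have h5 : (20 : ℝ) ^ 3 ≤ L ^ 3 := pow_le_pow_left₀ (by norm_num) hL 3
    have : L ^ 4 = L ^ 3 * L := by ring
    rw [this]
    nlinarith
  nlinarith

end Pool.Agent.Q187.MK
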